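import Mathlib
import Pool.Agent.K4H45.PC.Spec

/-! Piece FIN of MP_24cacf_an (second seat). -/

set_option autoImplicit false

namespace K4H45.PC
open Set Polynomial

noncomputable section

theorem fin : S_CPX → S_BALL → S_FIN := by
  intro hcpx hball n hn F hF
  obtain ⟨⟨K, hKc, hKv, hKi, hFK⟩, c, hc, -, hc01, hFc, hvar⟩ := hF
  set β := c 0 with hβ
  let Φ : ℂ ≃ₜ ℝ × ℝ := (Homeomorph.addRight β).trans Complex.equivRealProdCLM.toHomeomorph
  have hΦ : ∀ w, Φ w = ((w + β).re, (w + β).im) := fun w => rfl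
  have hdist : ∀ w w' : ℂ, dist (Φ w) (Φ w') ≤ ‖w - w'‖ := by
    intro w w'
    rw [hΦ, hΦ, Prod.dist_eq]
    refine max_le ?_ ?_
    · rw [Real.dist_eq]
      have := Complex.abs_re_le_norm (w - w')
      simpa using this
    · rw [Real.dist_eq]
      have := Complex.abs_im_le_norm (w - w')
      simpa using this
  set K' : Set ℂ := Φ ⁻¹' K with hK'
  have hfr : frontier K' = Φ ⁻¹' F := by
    rw [hK', hFK, Homeomorph.preimage_frontier]
  have hcpt : IsCompact K' := (Φ.isCompact_preimage).mpr hKc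
  have hcvx : Convex ℝ K' := by
    intro x hx y hy a b ha hb hab
    have h1 : Φ (a • x + b • y) = a • Φ x + b • Φ y := by
      rw [hΦ, hΦ, hΦ]
      have hb' : b = 1 - a := by linarith
      subst hb'
      ext
      · simp; ring
      · simp; ring
    show Φ (a • x + b • y) ∈ K
    rw [h1]
    exact hKv hx hy ha hb hab
  have hfb : frontier K' ⊆ Metric.closedBall 0 1 := by
    intro w hw
    rw [hfr] at hw
    have hw' : Φ w ∈ F := hw
    rw [hFc] at hw'
    obtain ⟨s, hs, hsw⟩ := hw'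
    have hcs : c s = w + β := by
      rw [hΦ] at hsw
      have h1 := (Prod.mk.injEq _ _ _ _).mp hsw
      exact Complex.ext h1.1 h1.2
    have h2 : edist (c s) (c 0) ≤ 1 := by
      rw [← hvar]
      exact eVariationOn.edist_le c hs (left_mem_Icc.mpr zero_le_one)
    have h3 : dist (c s) (c 0) ≤ 1 := by
      rw [edist_dist] at h2
      have := ENNReal.ofReal_le_one.mp h2
      exact this
    rw [mem_closedBall_zero_iff]
    rw [dist_eq_norm, hcs, ← hβ, add_sub_cancel_right] at h3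
    exact h3
  have hB : Base K' := by
    refine ⟨hcpt, hcvx, ?_, hball K' 0 hcpt hcvx hfb⟩
    obtain ⟨x, hx⟩ := hKi
    refine ⟨Φ.symm x, ?_⟩
    show Φ (Φ.symm x) ∈ K
    rw [Φ.apply_symm_apply]
    exact interior_subset hx
  obtain ⟨P, Q, hP, hQ, h1, h2⟩ := hcpx n hn K' hB
  have hlin : (C (2 : ℝ) * X - C 1 : ℝ[X]).natDegree ≤ 1 := by
    compute_degree
  have hdeg : ∀ (R : ℝ[X]) (a : ℝ), R.natDegree ≤ n →
      (R.comp (C 2 * X - C 1) + C a).natDegree ≤ n := by
    intro R a hR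
    rw [natDegree_add_C]
    refine natDegree_comp_le.trans ?_
    calc R.natDegree * (C (2 : ℝ) * X - C 1 : ℝ[X]).natDegree ≤ n * 1 := Nat.mul_le_mul hR hlin
      _ = n := mul_one n
  have hev : ∀ (R : ℝ[X]) (a s : ℝ), (R.comp (C 2 * X - C 1) + C a).eval s
      = R.eval (2 * s - 1) + a := by
    intro R a s
    simp [eval_comp]
  refine ⟨P.comp (C 2 * X - C 1) + C β.re, Q.comp (C 2 * X - C 1) + C β.im,
    hdeg P _ hP, hdeg Q _ hQ, ?_⟩
  have hΦPQ : ∀ s : ℝ, Φ ⟨P.eval (2 * s - 1), Q.eval (2 * s - 1)⟩ =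
      ((P.comp (C 2 * X - C 1) + C β.re).eval s, (Q.comp (C 2 * X - C 1) + C β.im).eval s) := by
    intro s
    rw [hΦ, hev, hev]
    simp
  refine Metric.hausdorffDist_le_of_mem_dist (by positivity) ?_ ?_
  · intro x hx
    have hw : Φ.symm x ∈ frontier K' := by
      rw [hfr]; show Φ (Φ.symm x) ∈ F; rw [Φ.apply_symm_apply]; exact hx
    obtain ⟨u, hu, huw⟩ := h2 _ hw
    refine ⟨_, ⟨(u + 1) / 2, ⟨by linarith [hu.1], by linarith [hu.2]⟩, rfl⟩, ?_⟩
    show dist x ((P.comp (C 2 * X - C 1) + C β.re).eval ((u + 1) / 2),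
      (Q.comp (C 2 * X - C 1) + C β.im).eval ((u + 1) / 2)) ≤ _
    rw [← hΦPQ, ← Φ.apply_symm_apply x]
    refine (hdist _ _).trans ?_
    have h3 : 2 * ((u + 1) / 2) - 1 = u := by ring
    rw [h3]
    simpa using huw
  · rintro y ⟨s, hs, rfl⟩
    obtain ⟨z, hz, hzw⟩ := h1 (2 * s - 1) ⟨by linarith [hs.1], by linarith [hs.2]⟩
    rw [hfr] at hz
    refine ⟨Φ z, hz, ?_⟩
    show dist ((P.comp (C 2 * X - C 1) + C β.re).eval s,
      (Q.comp (C 2 * X - C 1) + C β.im).eval s) (Φ z) ≤ _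
    rw [← hΦPQ]
    refine (hdist _ _).trans ?_
    rw [← norm_sub_rev]
    exact hzw

end
end K4H45.PC
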